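import Mathlib

set_option autoImplicit false

namespace Pool.Agent.Results.MP_339db1_al.NotGenerated

universe u

/-- A `d`-CP structure on a monoid `M`: distinguished elements `τ i` and a bijection
`Φ : M^d → M` with `τ i * Φ m = m i`. -/
structure DCP (M : Type u) [Monoid M] (d : ℕ) where
  τ : Fin d → M
  Φ : (Fin d → M) ≃ M
  tau_mul : ∀ (m : Fin d → M) (i : Fin d), τ i * Φ m = m i

/-- The `1`-CP structure `(id; 1)`. -/
def idDCP (M : Type u) [Monoid M] : DCP M 1 where
  τ := fun _ => 1
  Φ := Equiv.funUnique (Fin 1) M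
  tau_mul := by
    intro m i
    rw [one_mul, Subsingleton.elim i default]
    rfl

/-- Combination of CP structures: from an `s`-CP structure `Ψ` and `d i`-CP structures `Φ i`
one gets a `∑ i, d i`-CP structure, with bijection
`(m_{ij}) ↦ Ψ(Φ_1(m_{11}, …), …, Φ_s(m_{s1}, …))` and distinguished elements `τ_{ij} ρ_i`, the
pairs `(i,j)` being listed in lexicographic order. -/
def combine {M : Type u} [Monoid M] {s : ℕ} (Ψ : DCP M s) {d : Fin s → ℕ}
    (Φ : ∀ i, DCP M (d i)) : DCP M (∑ i, d i) where
  τ := fun k => (Φ (finSigmaFinEquiv.symm k).1).τ (finSigmaFinEquiv.symm k).2 *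
    Ψ.τ (finSigmaFinEquiv.symm k).1
  Φ := ((Equiv.arrowCongr finSigmaFinEquiv.symm (Equiv.refl M)).trans
    (Equiv.piCurry (fun _ _ => M))).trans ((Equiv.piCongrRight fun i => (Φ i).Φ).trans Ψ.Φ)
  tau_mul := by
    intro m k
    rw [mul_assoc]
    change (Φ (finSigmaFinEquiv.symm k).1).τ (finSigmaFinEquiv.symm k).2 *
      (Ψ.τ (finSigmaFinEquiv.symm k).1 * Ψ.Φ (fun i => (Φ i).Φ
        (fun j => m (finSigmaFinEquiv ⟨i, j⟩)))) = m k
    rw [Ψ.tau_mul, (Φ _).tau_mul]
    simp

/-- The class `𝕊(M)` of all structures obtained from `(Σ; π₁, π₂)` and `(id; 1)` by repeated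
combination. -/
inductive InS {M : Type u} [Monoid M] (C : DCP M 2) : (d : ℕ) → DCP M d → Prop
  | base : InS C 2 C
  | id : InS C 1 (idDCP M)
  | comb {s : ℕ} {Ψ : DCP M s} {d : Fin s → ℕ} {Φ : ∀ i, DCP M (d i)} :
      InS C s Ψ → (∀ i, InS C (d i) (Φ i)) → InS C (∑ i, d i) (combine Ψ Φ)

/-- The map `φ_Φ : E_d → M`, `f ↦ Φ(τ_{f(1)}, …, τ_{f(d)})`. -/
def phi {M : Type u} [Monoid M] {d : ℕ} (S : DCP M d) (f : Fin d → Fin d) : M :=
  S.Φ (fun i => S.τ (f i))

/-- The submonoid generated by the union of all `φ_Φ(E_d)`, `2 ≤ d`, `(Φ; τ) ∈ 𝕊(M)`. -/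
def gen {M : Type u} [Monoid M] (C : DCP M 2) : Submonoid M :=
  Submonoid.closure {m | ∃ (d : ℕ) (S : DCP M d) (f : Fin d → Fin d),
    2 ≤ d ∧ InS C d S ∧ m = phi S f}

/-- Homomorphisms of CP monoids. -/
def IsCPHom {M N : Type u} [Monoid M] [Monoid N] (C : DCP M 2) (D : DCP N 2) (f : M →* N) : Prop :=
  (∀ i, f (C.τ i) = D.τ i) ∧ ∀ a b : M, f (C.Φ ![a, b]) = D.Φ ![f a, f b]

/-- A CP monoid is universal when it is an initial object of the category of CP monoids. -/
def IsUniversal {U : Type u} [Monoid U] (C : DCP U 2) : Prop :=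
  ∀ (N : Type u) [Monoid N] (D : DCP N 2), ∃! f : U →* N, IsCPHom C D f

/-! ### Existence of the universal CP monoid -/

/-- Terms in the signature of CP monoids. -/
inductive Term : Type u
  | one : Term
  | p1 : Term
  | p2 : Term
  | mul : Term → Term → Term
  | pair : Term → Term → Term

open Term

/-- The congruence generated by the axioms of CP monoids. -/
inductive Rel : Term.{u} → Term.{u} → Prop
  | refl (a : Term) : Rel a a
  | symm {a b : Term} : Rel a b → Rel b a
  | trans {a b c : Term} : Rel a b → Rel b c → Rel a c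
  | mulc {a b c d : Term} : Rel a b → Rel c d → Rel (mul a c) (mul b d)
  | pairc {a b c d : Term} : Rel a b → Rel c d → Rel (pair a c) (pair b d)
  | assoc (a b c : Term) : Rel (mul (mul a b) c) (mul a (mul b c))
  | one_mul (a : Term) : Rel (mul one a) a
  | mul_one (a : Term) : Rel (mul a one) a
  | p1_pair (a b : Term) : Rel (mul p1 (pair a b)) a
  | p2_pair (a b : Term) : Rel (mul p2 (pair a b)) b
  | eta (a : Term) : Rel (pair (mul p1 a) (mul p2 a)) a

/-- The setoid of `Rel`. -/
def termSetoid : Setoid Term.{u} := ⟨Rel, ⟨Rel.refl, Rel.symm, Rel.trans⟩⟩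

/-- The underlying type of the universal CP monoid. -/
def Univ : Type u := Quotient termSetoid.{u}

/-- The class of a term. -/
def Univ.mk (t : Term.{u}) : Univ.{u} := Quotient.mk termSetoid t

lemma Univ.sound {a b : Term.{u}} (h : Rel a b) : Univ.mk a = Univ.mk b := Quotient.sound h

instance : Monoid Univ.{u} where
  mul := Quotient.map₂ mul (fun _ _ h _ _ h' => Rel.mulc h h')
  one := Univ.mk one
  mul_assoc := by
    rintro ⟨a⟩ ⟨b⟩ ⟨c⟩
    exact Univ.sound (Rel.assoc a b c)
  one_mul := by
    rintro ⟨a⟩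
    exact Univ.sound (Rel.one_mul a)
  mul_one := by
    rintro ⟨a⟩
    exact Univ.sound (Rel.mul_one a)

lemma Univ.mk_mul (a b : Term.{u}) : Univ.mk a * Univ.mk b = Univ.mk (mul a b) := rfl

/-- Pairing on the universal CP monoid. -/
def Univ.pair : Univ.{u} → Univ.{u} → Univ.{u} :=
  Quotient.map₂ Term.pair (fun _ _ h _ _ h' => Rel.pairc h h')

/-- The CP structure of the universal CP monoid. -/
def univDCP : DCP Univ.{u} 2 where
  τ := ![Univ.mk p1, Univ.mk p2]
  Φ :=
    { toFun := fun m => Univ.pair (m 0) (m 1)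
      invFun := fun x => ![Univ.mk p1 * x, Univ.mk p2 * x]
      left_inv := by
        intro m
        obtain ⟨a, ha⟩ : ∃ a, Univ.mk a = m 0 := Quotient.exists_rep _
        obtain ⟨b, hb⟩ : ∃ b, Univ.mk b = m 1 := Quotient.exists_rep _
        funext i
        fin_cases i
        · change Univ.mk p1 * Univ.pair (m 0) (m 1) = m 0
          rw [← ha, ← hb]
          exact Univ.sound (Rel.p1_pair a b)
        · change Univ.mk p2 * Univ.pair (m 0) (m 1) = m 1
          rw [← ha, ← hb]
          exact Univ.sound (Rel.p2_pair a b)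
      right_inv := by
        rintro ⟨a⟩
        exact Univ.sound (Rel.eta a) }
  tau_mul := by
    intro m i
    obtain ⟨a, ha⟩ : ∃ a, Univ.mk a = m 0 := Quotient.exists_rep _
    obtain ⟨b, hb⟩ : ∃ b, Univ.mk b = m 1 := Quotient.exists_rep _
    fin_cases i
    · change Univ.mk p1 * Univ.pair (m 0) (m 1) = m 0
      rw [← ha, ← hb]
      exact Univ.sound (Rel.p1_pair a b)
    · change Univ.mk p2 * Univ.pair (m 0) (m 1) = m 1
      rw [← ha, ← hb]
      exact Univ.sound (Rel.p2_pair a b)

/-- Evaluation of terms in a CP monoid. -/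
def eval {N : Type u} [Monoid N] (D : DCP N 2) : Term.{u} → N
  | one => 1
  | p1 => D.τ 0
  | p2 => D.τ 1
  | mul a b => eval D a * eval D b
  | pair a b => D.Φ ![eval D a, eval D b]

lemma eta' {N : Type u} [Monoid N] (D : DCP N 2) (x : N) : D.Φ ![D.τ 0 * x, D.τ 1 * x] = x := by
  obtain ⟨m, rfl⟩ := D.Φ.surjective x
  rw [D.tau_mul, D.tau_mul]
  congr 1
  funext i
  fin_cases i <;> rfl

lemma eval_rel {N : Type u} [Monoid N] (D : DCP N 2) {a b : Term.{u}} (h : Rel a b) :
    eval D a = eval D b := by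
  induction h with
  | refl a => rfl
  | symm _ ih => exact ih.symm
  | trans _ _ ih1 ih2 => exact ih1.trans ih2
  | mulc _ _ ih1 ih2 => simp only [eval, ih1, ih2]
  | pairc _ _ ih1 ih2 => simp only [eval, ih1, ih2]
  | assoc a b c => exact mul_assoc _ _ _
  | one_mul a => exact _root_.one_mul _
  | mul_one a => exact _root_.mul_one _
  | p1_pair a b => exact D.tau_mul _ 0
  | p2_pair a b => exact D.tau_mul _ 1
  | eta a => exact eta' D _

/-- The homomorphism out of the universal CP monoid. -/
def evalHom {N : Type u} [Monoid N] (D : DCP N 2) : Univ.{u} →* N where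
  toFun := Quotient.lift (eval D) (fun _ _ h => eval_rel D h)
  map_one' := rfl
  map_mul' := by
    rintro ⟨a⟩ ⟨b⟩
    rfl

lemma univ_isUniversal : IsUniversal univDCP.{u} := by
  intro N _ D
  refine ⟨evalHom D, ⟨?_, ?_⟩, ?_⟩
  · intro i
    fin_cases i <;> rfl
  · rintro ⟨a⟩ ⟨b⟩
    rfl
  · rintro f ⟨hf1, hf2⟩
    ext x
    obtain ⟨t, rfl⟩ : ∃ t, Univ.mk t = x := Quotient.exists_rep _
    change f (Univ.mk t) = eval D t
    induction t with
    | one => exact f.map_one
    | p1 => exact hf1 0
    | p2 => exact hf1 1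
    | mul a b iha ihb =>
      rw [← Univ.mk_mul, f.map_mul, iha, ihb]
      rfl
    | pair a b iha ihb =>
      have := hf2 (Univ.mk a) (Univ.mk b)
      rw [iha, ihb] at this
      exact this

/-! ### A nonzero CP monoid -/

/-- A bijection `ℕ ⊕ ℕ ≃ ℕ` (on copies of `ℕ` in the universe `u`). -/
def natE : ULift.{u} ℕ ⊕ ULift.{u} ℕ ≃ ULift.{u} ℕ :=
  (Equiv.sumCongr Equiv.ulift Equiv.ulift).trans (Equiv.natSumNatEquivNat.trans Equiv.ulift.symm)

/-- The monoid of self-maps of (a copy of) `ℕ`, with the opposite of composition. -/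
def Maps : Type u := ULift.{u} ℕ → ULift.{u} ℕ

instance : Monoid Maps.{u} where
  mul f g := fun n => g (f n)
  one := fun n => n
  mul_assoc _ _ _ := rfl
  one_mul _ := rfl
  mul_one _ := rfl

lemma Maps.mul_def (f g : Maps.{u}) : f * g = fun n => g (f n) := rfl

/-- The opposite of the monoid of self-maps of (a copy of) `ℕ` is a nonzero CP monoid. -/
def natDCP : DCP Maps.{u} 2 where
  τ := ![fun n => natE (Sum.inl n), fun n => natE (Sum.inr n)]
  Φ :=
    { toFun := fun m n => Sum.elim (m 0) (m 1) (natE.symm n)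
      invFun := fun f => ![fun n => f (natE (Sum.inl n)), fun n => f (natE (Sum.inr n))]
      left_inv := by
        intro m
        funext i
        fin_cases i
        · funext n
          change Sum.elim (m 0) (m 1) (natE.symm (natE (Sum.inl n))) = m 0 n
          rw [Equiv.symm_apply_apply]
          rfl
        · funext n
          change Sum.elim (m 0) (m 1) (natE.symm (natE (Sum.inr n))) = m 1 n
          rw [Equiv.symm_apply_apply]
          rfl
      right_inv := by
        intro f
        funext n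
        obtain ⟨y, rfl⟩ := natE.surjective n
        change Sum.elim (fun n => f (natE (Sum.inl n))) (fun n => f (natE (Sum.inr n)))
          (natE.symm (natE y)) = f (natE y)
        rw [Equiv.symm_apply_apply]
        rcases y with y | y <;> rfl }
  tau_mul := by
    intro m i
    fin_cases i
    · funext n
      change Sum.elim (m 0) (m 1) (natE.symm (natE (Sum.inl n))) = m 0 n
      rw [Equiv.symm_apply_apply]
      rfl
    · funext n
      change Sum.elim (m 0) (m 1) (natE.symm (natE (Sum.inr n))) = m 1 n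
      rw [Equiv.symm_apply_apply]
      rfl

lemma exists_nontrivial_of_isUniversal {U : Type u} [Monoid U] {C : DCP U 2}
    (h : IsUniversal C) : Nontrivial U := by
  by_contra hU
  rw [not_nontrivial_iff_subsingleton] at hU
  obtain ⟨f, ⟨hf1, hf2⟩, -⟩ := h _ natDCP.{u}
  have e1 : C.τ 0 = C.τ 1 := Subsingleton.elim _ _
  have e2 : (natDCP.{u}).τ 0 = (natDCP.{u}).τ 1 := by rw [← hf1 0, ← hf1 1, e1]
  have e3 : natE (Sum.inl (⟨0⟩ : ULift.{u} ℕ)) = natE (Sum.inr (⟨0⟩ : ULift.{u} ℕ)) :=
    congrFun e2 (⟨0⟩ : ULift.{u} ℕ)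
  exact Sum.inl_ne_inr (natE.injective e3)

/-! ### The main argument -/

/-- In a nonzero CP monoid the distinguished elements of a `d`-CP structure are distinct. -/
lemma tau_injective {M : Type u} [Monoid M] [Nontrivial M] {d : ℕ} (S : DCP M d) :
    Function.Injective S.τ := by
  classical
  intro i j hij
  by_contra hne
  obtain ⟨a, b, hab⟩ := exists_pair_ne M
  apply hab
  have h1 := S.tau_mul (fun k => if k = i then a else b) i
  have h2 := S.tau_mul (fun k => if k = i then a else b) j
  rw [hij, h2] at h1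
  simpa [Ne.symm hne] using h1.symm

/-- `φ_Φ` reverses products. -/
lemma phi_mul {M : Type u} [Monoid M] {d : ℕ} (S : DCP M d) (f g : Fin d → Fin d) :
    phi S f * phi S g = phi S (g ∘ f) := by
  have key : ∀ x y : M, (∀ i, S.τ i * x = S.τ i * y) → x = y := by
    intro x y h
    obtain ⟨m, rfl⟩ := S.Φ.surjective x
    obtain ⟨m', rfl⟩ := S.Φ.surjective y
    congr 1
    funext i
    rw [← S.tau_mul m i, ← S.tau_mul m' i, h i]
  apply key
  intro i
  rw [← mul_assoc]
  simp only [phi, S.tau_mul, Function.comp]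

lemma phi_id {M : Type u} [Monoid M] {d : ℕ} (S : DCP M d) : phi S id = 1 := by
  obtain ⟨m, hm⟩ := S.Φ.surjective (1 : M)
  have : S.τ = m := by
    funext i
    rw [← S.tau_mul m i, hm, mul_one]
  rw [phi, ← hm]
  congr 1

/-- A right invertible element of `φ_Φ(E_d)` is a unit. -/
lemma isUnit_phi_of_mul_eq_one {M : Type u} [Monoid M] [Nontrivial M] {d : ℕ} (S : DCP M d)
    (f : Fin d → Fin d) {t : M} (h : phi S f * t = 1) : IsUnit (phi S f) := by
  have hinj : Function.Injective f := by
    intro i j hij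
    apply tau_injective S
    have h1 : S.τ i = S.τ (f i) * t := by
      rw [← S.tau_mul (fun k => S.τ (f k)) i]
      change _ = S.τ i * phi S f * t
      rw [mul_assoc, h, mul_one]
    have h2 : S.τ j = S.τ (f j) * t := by
      rw [← S.tau_mul (fun k => S.τ (f k)) j]
      change _ = S.τ j * phi S f * t
      rw [mul_assoc, h, mul_one]
    rw [h1, h2, hij]
  have hbij : Function.Bijective f := Finite.injective_iff_bijective.mp hinj
  let e := Equiv.ofBijective f hbij
  refine ⟨⟨phi S f, phi S e.symm, ?_, ?_⟩, rfl⟩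
  · rw [phi_mul]
    have : (e.symm : Fin d → Fin d) ∘ f = id := by
      funext x
      exact e.symm_apply_apply x
    rw [this, phi_id]
  · rw [phi_mul]
    have : f ∘ (e.symm : Fin d → Fin d) = id := by
      funext x
      exact e.apply_symm_apply x
    rw [this, phi_id]

/-- In `gen C` right invertible elements are units. -/
lemma isUnit_of_mem_gen {M : Type u} [Monoid M] [Nontrivial M] {C : DCP M 2} {x : M}
    (hx : x ∈ gen C) : ∀ t : M, x * t = 1 → IsUnit x := by
  induction hx using Submonoid.closure_induction_left with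
  | one => intro t _; exact isUnit_one
  | mul_left y hy x _ ih =>
    obtain ⟨d, S, f, -, -, rfl⟩ := hy
    intro t ht
    rw [mul_assoc] at ht
    have hu : IsUnit (phi S f) := isUnit_phi_of_mul_eq_one S f ht
    obtain ⟨v, hv⟩ := hu
    have h1 : x * (t * v) = 1 := by
      have h2 : x * t = ↑v⁻¹ := by
        rw [← hv] at ht
        exact (Units.eq_inv_mul_iff_mul_eq v).2 ht |>.trans (mul_one _)
      rw [← mul_assoc, h2]
      simp
    rw [← hv]
    exact v.isUnit.mul (ih _ h1)

/-- `π₁` is right invertible but not a unit. -/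
lemma tau_not_mem_gen {M : Type u} [Monoid M] [Nontrivial M] (C : DCP M 2) :
    C.τ 0 ∉ gen C := by
  intro h
  obtain ⟨a, b, hab⟩ := exists_pair_ne M
  have hu : IsUnit (C.τ 0) := isUnit_of_mem_gen h (C.Φ ![1, a]) (C.tau_mul _ 0)
  apply hab
  have h1 : C.τ 0 * C.Φ ![1, a] = C.τ 0 * C.Φ ![1, b] := by
    rw [C.tau_mul, C.tau_mul]
    rfl
  have h2 := hu.mul_left_cancel h1
  have h3 := congrFun (C.Φ.injective h2) 1
  simpa using h3

/-- **Answer to Q1.** There is a universal CP monoid, and in every universal CP monoid `U` the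
submonoid generated by all the sets `φ_Φ(E_d)` is a proper submonoid. -/
theorem result :
    (∃ (U : Type u) (_ : Monoid U) (C : DCP U 2), IsUniversal C) ∧
      ∀ (U : Type u) [Monoid U] (C : DCP U 2), IsUniversal C → gen C ≠ ⊤ := by
  refine ⟨⟨Univ, inferInstance, univDCP, univ_isUniversal⟩, ?_⟩
  intro U _ C hC htop
  have := exists_nontrivial_of_isUniversal hC
  apply tau_not_mem_gen C
  rw [htop]
  trivial

end Pool.Agent.Results.MP_339db1_al.NotGenerated
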